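import Pool.Agent.H295R2.MK.Defs

set_option autoImplicit false

/-! Task A6 of helper295: `N4` as a sum of the weight `W4`. -/

namespace Pool.Agent.H885R2.MKA6

open Finset
open Pool.Agent.H306R2
open H295MK

/-- from `(h,l,r,r')` to `((a,b),(c,d))` -/
def fw (b : Fin 4 → ℕ) : (ℕ × ℕ) × (ℕ × ℕ) := ((b 0 * b 2, b 1 * b 3), (b 1 * b 2, b 0 * b 3))

/-- from `((a,b),(c,d))` to `(h,l,r,r')` -/
def bw (q : (ℕ × ℕ) × (ℕ × ℕ)) : Fin 4 → ℕ :=
  ![q.1.1 / Nat.gcd q.1.1 q.2.1, q.2.1 / Nat.gcd q.1.1 q.2.1, Nat.gcd q.1.1 q.2.1,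
    q.1.2 / (q.2.1 / Nat.gcd q.1.1 q.2.1)]

theorem bw_fw (b : Fin 4 → ℕ) (h : ∀ i, b i ≠ 0) (hc : Nat.Coprime (b 0) (b 1)) :
    bw (fw b) = b := by
  have hg : Nat.gcd (b 0 * b 2) (b 1 * b 2) = b 2 := by
    rw [Nat.gcd_mul_right, hc, one_mul]
  have h2 : 0 < b 2 := Nat.pos_of_ne_zero (h 2)
  have h1 : 0 < b 1 := Nat.pos_of_ne_zero (h 1)
  funext i
  fin_cases i
  · simp only [bw, fw, hg]
    exact Nat.mul_div_cancel _ h2
  · simp only [bw, fw, hg]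
    exact Nat.mul_div_cancel _ h2
  · simp only [bw, fw, hg]
    rfl
  · simp only [bw, fw, hg]
    change b 1 * b 3 / (b 1 * b 2 / b 2) = b 3
    rw [Nat.mul_div_cancel _ h2, Nat.mul_div_cancel_left _ h1]

/-- the arithmetic of a quadruple with `a b = c d` -/
theorem quad {a b c d : ℕ} (ha : 0 < a) (hc : 0 < c) (h : a * b = c * d) :
    Nat.Coprime (a / Nat.gcd a c) (c / Nat.gcd a c) ∧
    a / Nat.gcd a c * Nat.gcd a c = a ∧ c / Nat.gcd a c * Nat.gcd a c = c ∧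
    c / Nat.gcd a c * (b / (c / Nat.gcd a c)) = b ∧
    a / Nat.gcd a c * (b / (c / Nat.gcd a c)) = d := by
  have hg : 0 < Nat.gcd a c := Nat.gcd_pos_of_pos_left _ ha
  have h1 : a / Nat.gcd a c * Nat.gcd a c = a := Nat.div_mul_cancel (Nat.gcd_dvd_left a c)
  have h2 : c / Nat.gcd a c * Nat.gcd a c = c := Nat.div_mul_cancel (Nat.gcd_dvd_right a c)
  have hcop : Nat.Coprime (a / Nat.gcd a c) (c / Nat.gcd a c) := Nat.coprime_div_gcd_div_gcd hg
  set g := Nat.gcd a c with hgd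
  set x := a / g with hx
  set l := c / g with hl
  have hl0 : 0 < l := by
    rcases Nat.eq_zero_or_pos l with h0 | h0
    · rw [h0, zero_mul] at h2; omega
    · exact h0
  have h3 : x * b = l * d := by
    have h4 : g * (x * b) = g * (l * d) := by
      calc g * (x * b) = (x * g) * b := by ring
        _ = a * b := by rw [h1]
        _ = c * d := h
        _ = (l * g) * d := by rw [h2]
        _ = g * (l * d) := by ring
    exact Nat.eq_of_mul_eq_mul_left hg h4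
  have h5 : l ∣ b := by
    have : l ∣ x * b := ⟨d, h3⟩
    exact (Nat.Coprime.dvd_of_dvd_mul_left hcop.symm this)
  have h6 : l * (b / l) = b := Nat.mul_div_cancel' h5
  refine ⟨hcop, h1, h2, h6, ?_⟩
  have h7 : l * (x * (b / l)) = l * d := by
    calc l * (x * (b / l)) = x * (l * (b / l)) := by ring
      _ = x * b := by rw [h6]
      _ = l * d := h3
  exact Nat.eq_of_mul_eq_mul_left hl0 h7

theorem fw_bw {q : (ℕ × ℕ) × (ℕ × ℕ)} (ha : 0 < q.1.1) (hc : 0 < q.2.1)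
    (h : q.1.1 * q.1.2 = q.2.1 * q.2.2) : fw (bw q) = q := by
  obtain ⟨_, h1, h2, h3, h4⟩ := quad ha hc h
  obtain ⟨⟨a, b⟩, c, d⟩ := q
  simp only at h1 h2 h3 h4
  simp only [fw, bw]
  change ((a / Nat.gcd a c * Nat.gcd a c, c / Nat.gcd a c * (b / (c / Nat.gcd a c))),
    (c / Nat.gcd a c * Nat.gcd a c, a / Nat.gcd a c * (b / (c / Nat.gcd a c)))) = _
  rw [h1, h2, h3, h4]

theorem pos_cond {L a : ℝ} (hL : 0 < L) {b : Fin 4 → ℕ} {i k : Fin 4} (hi : b i ≠ 0)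
    (hk : b k ≠ 0) : pos L b i + pos L b k ≤ a ↔ b i * b k ≤ ⌊Real.exp (a * L)⌋₊ := by
  have h1 : (0 : ℝ) < b i := by exact_mod_cast Nat.pos_of_ne_zero hi
  have h2 : (0 : ℝ) < b k := by exact_mod_cast Nat.pos_of_ne_zero hk
  unfold pos
  rw [← add_div, div_le_iff₀ hL, ← Real.log_mul h1.ne' h2.ne',
    Real.log_le_iff_le_exp (by positivity), Nat.le_floor_iff (Real.exp_pos _).le]
  push_cast
  rfl

/-- the finite index set -/
noncomputable def S' (N : ℕ) : Finset (Fin 4 → ℕ) :=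
  (Fintype.piFinset (fun _ : Fin 4 => Icc 1 N)).filter (fun b => Nat.Coprime (b 0) (b 1) ∧
    b 0 * b 2 ≤ N ∧ b 1 * b 2 ≤ N ∧ b 0 * b 3 ≤ N ∧ b 1 * b 3 ≤ N)

theorem term_zero {j : ℕ} {L a : ℝ} (hL : 0 < L) {b : Fin 4 → ℕ}
    (hb : b ∉ S' ⌊Real.exp (a * L)⌋₊) : W4 j b * chN a (pos L b) = 0 := by
  by_contra hne
  apply hb
  have hW : W4 j b ≠ 0 := left_ne_zero_of_mul hne
  have hch : chN a (pos L b) ≠ 0 := right_ne_zero_of_mul hne
  unfold W4 at hW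
  unfold chN at hch
  have h1 : Nat.Coprime (b 0) (b 1) ∧ ∀ i, b i ≠ 0 := by
    by_contra h
    exact hW (if_neg h)
  have h2 : pos L b 0 + pos L b 2 ≤ a ∧ pos L b 1 + pos L b 2 ≤ a ∧ pos L b 0 + pos L b 3 ≤ a ∧
      pos L b 1 + pos L b 3 ≤ a := by
    by_contra h
    exact hch (if_neg h)
  obtain ⟨hc, h0⟩ := h1
  rw [pos_cond hL (h0 0) (h0 2), pos_cond hL (h0 1) (h0 2), pos_cond hL (h0 0) (h0 3),
    pos_cond hL (h0 1) (h0 3)] at h2
  obtain ⟨c02, c12, c03, c13⟩ := h2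
  have p : ∀ i, 1 ≤ b i := fun i => Nat.pos_of_ne_zero (h0 i)
  unfold S'
  rw [mem_filter, Fintype.mem_piFinset]
  refine ⟨?_, hc, c02, c12, c03, c13⟩
  intro i
  rw [mem_Icc]
  refine ⟨p i, ?_⟩
  have q0 : b 0 ≤ b 0 * b 2 := Nat.le_mul_of_pos_right _ (p 2)
  have q1 : b 1 ≤ b 1 * b 2 := Nat.le_mul_of_pos_right _ (p 2)
  have q2 : b 2 ≤ b 0 * b 2 := Nat.le_mul_of_pos_left _ (p 0)
  have q3 : b 3 ≤ b 0 * b 3 := Nat.le_mul_of_pos_left _ (p 0)
  fin_cases i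
  · exact q0.trans c02
  · exact q1.trans c12
  · exact q2.trans c02
  · exact q3.trans c03

theorem A6 : N4sum := by
  intro j L a _ hL _
  set N := ⌊Real.exp (a * L)⌋₊ with hN
  refine ⟨summable_of_ne_finset_zero (s := S' N) (fun b hb => term_zero hL hb), ?_⟩
  rw [tsum_eq_sum (s := S' N) (fun b hb => term_zero hL hb)]
  have hN4 : N4 j (Real.exp (a * L)) = ∑ x ∈ ((Icc 1 N ×ˢ Icc 1 N) ×ˢ (Icc 1 N ×ˢ Icc 1 N)).filter
      (fun x : (ℕ × ℕ) × (ℕ × ℕ) => x.1.1 * x.1.2 = x.2.1 * x.2.2),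
      dv j x.1.1 * dv j x.1.2 * dv j x.2.1 * dv j x.2.2 / ((x.1.1 : ℝ) * x.1.2) := by
    rw [sum_filter, Finset.sum_product, Finset.sum_product]
    unfold N4
    apply sum_congr rfl
    intro a _
    apply sum_congr rfl
    intro b _
    rw [Finset.sum_product]
  rw [hN4]
  symm
  refine Finset.sum_nbij' fw bw ?_ ?_ ?_ ?_ ?_
  · intro b hb
    unfold S' at hb
    rw [mem_filter, Fintype.mem_piFinset] at hb
    obtain ⟨h1, _, c02, c12, c03, c13⟩ := hb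
    have p : ∀ i, 1 ≤ b i := fun i => (mem_Icc.1 (h1 i)).1
    rw [mem_filter, mem_product, mem_product, mem_product, mem_Icc, mem_Icc, mem_Icc, mem_Icc]
    refine ⟨⟨⟨⟨Nat.mul_pos (p 0) (p 2), c02⟩, Nat.mul_pos (p 1) (p 3), c13⟩,
      ⟨Nat.mul_pos (p 1) (p 2), c12⟩, Nat.mul_pos (p 0) (p 3), c03⟩, ?_⟩
    simp only [fw]
    ring
  · intro q hq
    rw [mem_filter, mem_product, mem_product, mem_product, mem_Icc, mem_Icc, mem_Icc,
      mem_Icc] at hq
    obtain ⟨⟨⟨⟨a1, a2⟩, b1, b2⟩, ⟨c1, c2⟩, d1, d2⟩, heq⟩ := hq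
    obtain ⟨hcop, h1, h2, h3, h4⟩ := quad a1 c1 heq
    replace h1 : bw q 0 * bw q 2 = q.1.1 := h1
    replace h2 : bw q 1 * bw q 2 = q.2.1 := h2
    replace h3 : bw q 1 * bw q 3 = q.1.2 := h3
    replace h4 : bw q 0 * bw q 3 = q.2.2 := h4
    replace hcop : Nat.Coprime (bw q 0) (bw q 1) := hcop
    have p0 : 1 ≤ bw q 0 := by
      rcases Nat.eq_zero_or_pos (bw q 0) with h | h
      · rw [h, zero_mul] at h1; omega
      · exact h
    have p1 : 1 ≤ bw q 1 := by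
      rcases Nat.eq_zero_or_pos (bw q 1) with h | h
      · rw [h, zero_mul] at h2; omega
      · exact h
    have p2 : 1 ≤ bw q 2 := by
      rcases Nat.eq_zero_or_pos (bw q 2) with h | h
      · rw [h, mul_zero] at h2; omega
      · exact h
    have p3 : 1 ≤ bw q 3 := by
      rcases Nat.eq_zero_or_pos (bw q 3) with h | h
      · rw [h, mul_zero] at h3; omega
      · exact h
    unfold S'
    rw [mem_filter, Fintype.mem_piFinset]
    refine ⟨?_, hcop, ?_, ?_, ?_, ?_⟩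
    · intro i
      rw [mem_Icc]
      fin_cases i
      · refine ⟨p0, le_trans ?_ a2⟩
        calc bw q 0 ≤ bw q 0 * bw q 2 := Nat.le_mul_of_pos_right _ p2
          _ = q.1.1 := h1
      · refine ⟨p1, le_trans ?_ c2⟩
        calc bw q 1 ≤ bw q 1 * bw q 2 := Nat.le_mul_of_pos_right _ p2
          _ = q.2.1 := h2
      · refine ⟨p2, le_trans ?_ a2⟩
        calc bw q 2 ≤ bw q 0 * bw q 2 := Nat.le_mul_of_pos_left _ p0
          _ = q.1.1 := h1
      · refine ⟨p3, le_trans ?_ b2⟩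
        calc bw q 3 ≤ bw q 1 * bw q 3 := Nat.le_mul_of_pos_left _ p1
          _ = q.1.2 := h3
    · rw [h1]; exact a2
    · rw [h2]; exact c2
    · rw [h4]; exact d2
    · rw [h3]; exact b2
  · intro b hb
    unfold S' at hb
    rw [mem_filter, Fintype.mem_piFinset] at hb
    obtain ⟨h1, hc, _⟩ := hb
    exact bw_fw b (fun i => by have := (mem_Icc.1 (h1 i)).1; omega) hc
  · intro q hq
    rw [mem_filter, mem_product, mem_product, mem_product, mem_Icc, mem_Icc, mem_Icc,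
      mem_Icc] at hq
    obtain ⟨⟨⟨⟨a1, _⟩, _⟩, ⟨c1, _⟩, _⟩, heq⟩ := hq
    exact fw_bw a1 c1 heq
  · intro b hb
    unfold S' at hb
    rw [mem_filter, Fintype.mem_piFinset] at hb
    obtain ⟨h1, hc, c02, c12, c03, c13⟩ := hb
    have p : ∀ i, b i ≠ 0 := fun i => by have := (mem_Icc.1 (h1 i)).1; omega
    have hch : chN a (pos L b) = 1 := by
      unfold chN
      rw [if_pos]
      rw [pos_cond hL (p 0) (p 2), pos_cond hL (p 1) (p 2), pos_cond hL (p 0) (p 3),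
        pos_cond hL (p 1) (p 3)]
      exact ⟨c02, c12, c03, c13⟩
    rw [hch, mul_one]
    unfold W4
    rw [if_pos ⟨hc, p⟩]
    simp only [fw]
    push_cast
    have e1 : (b 0 : ℝ) * b 1 * b 2 * b 3 = (b 0 : ℝ) * b 2 * (b 1 * b 3) := by ring
    rw [e1]
    congr 1
    ring

end Pool.Agent.H885R2.MKA6
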